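import Pool.Agent.H39.SC.Final

/-!
# MP_3b7928_nt, Q1: `∑ C(2k,k)/k³ ≡ -2 H_{p-1}/p² - (13/27) H^{(3)}_{p-1}` modulo `p⁴`

Full answer to Q1 (the congruence holds for every prime `p > 7`).
-/

namespace Pool.Agent.Results.MP_3b7928_nt.CentralBinomialCongruence
open Finset

/-- The `p`-adic valuation of `a - b` is at least `m` (it is infinite when `a = b`). -/
def Cong (p m : ℕ) (a b : ℚ) : Prop := a = b ∨ (m : ℤ) ≤ padicValRat p (a - b)

/-- `H_{n}^{(r)} = ∑ 1 / k ^ r`, `1 ≤ k ≤ n` -/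
def harm (r n : ℕ) : ℚ := ∑ k ∈ Icc 1 n, 1 / (k : ℚ) ^ r

/-- `∑ C(2k,k) / k³`, `1 ≤ k ≤ n` -/
def binSum (n : ℕ) : ℚ := ∑ k ∈ Icc 1 n, 1 / (k : ℚ) ^ 3 * ((2 * k).choose k : ℚ)

theorem harm_eq (r n : ℕ) : harm r n = H39.SC.S1 (H39.SC.pw r) n := by
  induction n with
  | zero => simp [harm]
  | succ n ih =>
    rw [harm, sum_Icc_succ_top (by omega), ← harm, ih, H39.SC.S1_succ]
    simp [H39.SC.pw]

theorem binSum_eq (n : ℕ) :
    binSum n = ∑ i ∈ range n, H39.SC.CB (i + 1) * H39.SC.pw 3 (i + 1) := by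
  induction n with
  | zero => simp [binSum]
  | succ n ih =>
    rw [binSum, sum_Icc_succ_top (by omega), ← binSum, ih, sum_range_succ]
    simp only [H39.SC.pw, H39.SC.CB]
    rw [inv_pow, one_div]
    ring

theorem cong_of_M {p : ℕ} [hp : Fact p.Prime] {m : ℕ} {a b : ℚ} (h : H39.SC.M p m (a - b)) :
    Cong p m a b := by
  obtain ⟨y, hy, e⟩ := h
  by_cases hy0 : y = 0
  · left
    rw [hy0, mul_zero] at e
    linarith
  · right
    rw [e, padicValRat.mul (pow_ne_zero _ H39.SC.p_ne) hy0, padicValRat.pow,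
      padicValRat.self hp.out.one_lt]
    have h1 : padicNorm p y ≤ 1 := hy
    rw [padicNorm.eq_zpow_of_nonzero hy0] at h1
    have h2 : 0 ≤ padicValRat p y := by
      by_contra hneg
      push Not at hneg
      have : (1 : ℚ) < (p : ℚ) ^ (-padicValRat p y) :=
        one_lt_zpow₀ (by exact_mod_cast hp.out.one_lt) (by omega)
      linarith
    push_cast
    linarith

/-- For every prime `p > 7`:
`∑_{k=1}^{p-1} C(2k,k)/k³ ≡ -2 H_{p-1}/p² - (13/27) H^{(3)}_{p-1}  (mod p⁴)`. -/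
theorem result (p : ℕ) (hp : p.Prime) (h7 : 7 < p) :
    Cong p 4 (binSum (p - 1)) (-(2 * harm 1 (p - 1) / (p : ℚ) ^ 2) - 13 / 27 * harm 3 (p - 1)) := by
  obtain ⟨N, rfl⟩ : ∃ N, p = N + 1 := ⟨p - 1, by omega⟩
  have : Fact (N + 1).Prime := ⟨hp⟩
  have hN : Even N := by
    rcases hp.eq_two_or_odd' with h | h
    · omega
    · rw [Nat.even_iff]; rw [Nat.odd_iff] at h; omega
  obtain ⟨h, hh, hH⟩ := H39.SC.H1 (N := N) h7
  have h1 := H39.SC.main_h hh hH h7 hN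
  apply cong_of_M
  rw [Nat.add_sub_cancel, harm_eq, harm_eq, binSum_eq, hH]
  have hp0 : ((N + 1 : ℕ) : ℚ) ≠ 0 := H39.SC.p_ne
  have h2 : H39.SC.M (N + 1) 4 (((27 : ℕ) : ℚ) *
      ((∑ i ∈ range N, H39.SC.CB (i + 1) * H39.SC.pw 3 (i + 1))
      - (-(2 * (((N + 1 : ℕ) : ℚ) ^ 2 * h) / ((N + 1 : ℕ) : ℚ) ^ 2)
        - 13 / 27 * H39.SC.S1 (H39.SC.pw 3) N))) := by
    refine h1.congr ?_
    have : 2 * (((N + 1 : ℕ) : ℚ) ^ 2 * h) / ((N + 1 : ℕ) : ℚ) ^ 2 = 2 * h := by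
      field_simp
    rw [this]
    push_cast
    ring
  apply h2.of_nat_mul
  intro hd
  have h3 : (N + 1) ∣ 3 ^ 3 := by norm_num; exact hd
  have := (Nat.prime_dvd_prime_iff_eq hp Nat.prime_three).mp (hp.dvd_of_dvd_pow h3)
  omega

end Pool.Agent.Results.MP_3b7928_nt.CentralBinomialCongruence
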